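import Pool.Agent.Helper86.Bar.Primes

/-!
# Few exceptions force an inequality without exceptions: the general statement
-/

set_option autoImplicit false

namespace Pool.Agent.Helper86.Hyp

open Finset
open Pool.Agent.Helper86.Bar (good many_primes)

/-- the values `m ≤ Z` of the conductor `M` for which the inequality `Δ ≤ M ^ κ` has an exception of
size at most `Z ^ κ` -/
def Exc {α : Type*} (M : α → ℕ) (Δ : α → ℝ) (κ Z : ℝ) : Set ℕ :=
  {m | (m : ℝ) ≤ Z ∧ ∃ x, M x = m ∧ (m : ℝ) ^ κ < Δ x ∧ Δ x ≤ Z ^ κ}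

theorem exc_finite {α : Type*} (M : α → ℕ) (Δ : α → ℝ) (κ Z : ℝ) : (Exc M Δ κ Z).Finite := by
  refine (Set.finite_Iic ⌊Z⌋₊).subset fun m hm => ?_
  exact Nat.le_floor hm.1

theorem barrier {α : Type*} {M : α → ℕ} (hM : ∀ x, 1 ≤ M x) {Δ : α → ℝ} {Q n : ℕ}
    (hQ : 0 < Q) {s : ℝ}
    (htw : ∀ x, ∀ l : ℕ, l.Prime → 7 ≤ l → ¬ l ∣ Q * M x →
      ∃ y, M y = M x * l ^ n ∧ Δ y = Δ x * (l : ℝ) ^ s)
    (hn : 1 ≤ n) (hs : 0 ≤ s) {κ θ : ℝ} (hκ0 : 0 < κ) (hκ : s < n * κ) (hθ0 : 0 ≤ θ)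
    (hθ : n * θ < 1)
    (h : ∃ C : ℝ, ∀ Z : ℝ, 1 ≤ Z → ((Exc M Δ κ Z).ncard : ℝ) ≤ C * Z ^ θ)
    {κ' : ℝ} (hκ' : (κ - s * θ) / (1 - n * θ) < κ') :
    ∃ c : ℝ, 0 < c ∧ ∀ x, Δ x ≤ c * (M x : ℝ) ^ κ' := by
  classical
  obtain ⟨K0, hK0⟩ := h
  have hq : 0 < 1 - n * θ := by linarith
  rw [div_lt_iff₀ hq] at hκ'
  set m : ℝ := n * κ - s with hm
  have hm0 : 0 < m := by linarith
  set δ : ℝ := κ' - κ with hδ
  have hδθ : m * θ < δ * (1 - n * θ) := by
    rw [hm, hδ]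
    nlinarith
  have hδ0 : 0 < δ := by
    have h1 : 0 ≤ m * θ := by positivity
    have h2 : 0 < δ * (1 - n * θ) := by linarith
    exact (pos_iff_pos_of_mul_pos h2).mpr hq
  set η : ℝ := ((1 - n * θ) - m * θ / δ) / 2 with hη
  have hη0 : 0 < η := by
    have : m * θ / δ < 1 - n * θ := by
      rw [div_lt_iff₀ hδ0]
      linarith
    linarith
  have hη1 : η ≤ 1 / 2 := by
    have h1 : 0 ≤ m * θ / δ := by positivity
    have h2 : 0 ≤ n * θ := by positivity
    linarith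
  set K1 : ℝ := max K0 1 with hK1
  have hK10 : 0 < K1 := lt_of_lt_of_le one_pos (le_max_right _ _)
  -- the factor for `Z`
  set B : ℝ := 2 ^ (1 / κ) with hB
  have hB1 : 1 ≤ B := Real.one_le_rpow (by norm_num) (by positivity)
  have hBκ : B ^ κ = 2 := by
    rw [hB, ← Real.rpow_mul (by norm_num), one_div_mul_cancel hκ0.ne', Real.rpow_one]
  set A : ℝ := 2 * (m / δ + 1) with hA
  obtain ⟨n₀, hn₀⟩ := many_primes η A hη0
  set E : ℝ := 2 * K1 * B ^ θ with hE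
  have hE0 : 0 < E := by positivity
  set D₀ : ℝ := max (max 4 (n₀ + 1)) (max (E ^ (1 / η)) Q) with hD₀
  have hD₀4 : 4 ≤ D₀ := (le_max_left _ _).trans (le_max_left _ _)
  have hD₀n : (n₀ : ℝ) + 1 ≤ D₀ := (le_max_right _ _).trans (le_max_left _ _)
  have hD₀E : E ^ (1 / η) ≤ D₀ := (le_max_left _ _).trans (le_max_right _ _)
  have hD₀B : (Q : ℝ) ≤ D₀ := (le_max_right _ _).trans (le_max_right _ _)
  refine ⟨2 * D₀ ^ m, by positivity, fun x => ?_⟩
  by_contra hcon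
  push Not at hcon
  set N : ℝ := (M x : ℝ) with hN
  have hNW : 1 ≤ N := by rw [hN]; exact_mod_cast hM x
  have hN0 : 0 < N := by linarith
  set H : ℝ := Δ x with hH
  have hH0 : 0 < H := by
    have : 0 < 2 * D₀ ^ m * N ^ κ' := by positivity
    linarith
  have hNκ : 0 < N ^ κ := by positivity
  -- the parameter `D`
  set D : ℝ := (H / (2 * N ^ κ)) ^ (1 / m) with hD
  have hDm : D ^ m = H / (2 * N ^ κ) := by
    rw [hD, ← Real.rpow_mul (by positivity), one_div_mul_cancel hm0.ne', Real.rpow_one]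
  have hDH : H = 2 * N ^ κ * D ^ m := by
    rw [hDm]
    field_simp
  have hNκ' : N ^ κ' = N ^ κ * N ^ δ := by
    rw [← Real.rpow_add hN0]
    congr 1
    rw [hδ]
    ring
  have hDδ : D₀ ^ m * N ^ δ < D ^ m := by
    rw [hNκ', hDH] at hcon
    have h1 : (2 * N ^ κ) * (D₀ ^ m * N ^ δ) < (2 * N ^ κ) * D ^ m := by
      calc (2 * N ^ κ) * (D₀ ^ m * N ^ δ) = 2 * D₀ ^ m * (N ^ κ * N ^ δ) := by ring
        _ < _ := hcon
    exact lt_of_mul_lt_mul_left h1 (by positivity)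
  have hNδ1 : 1 ≤ N ^ δ := Real.one_le_rpow hNW hδ0.le
  have hD₀0 : 0 < D₀ := by linarith
  have hD0' : 0 ≤ D := by positivity
  have hDD₀ : D₀ < D := by
    have h1 : D₀ ^ m < D ^ m := by
      have : D₀ ^ m * 1 ≤ D₀ ^ m * N ^ δ := by gcongr
      linarith
    exact (Real.rpow_lt_rpow_iff hD₀0.le hD0' hm0).mp h1
  have hD0 : 0 < D := by linarith
  have hD1 : 1 ≤ D := by linarith
  have hNδ : N ^ δ ≤ D ^ m := by
    have h1 : 1 ≤ D₀ ^ m := Real.one_le_rpow (by linarith) hm0.le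
    nlinarith
  set Z : ℝ := B * (D ^ n * N) with hZ
  have hDN : 0 < D ^ n * N := by positivity
  have hDn1 : 1 ≤ D ^ n := one_le_pow₀ hD1
  have hZ1 : 1 ≤ Z := by
    have h3 : 1 ≤ D ^ n * N := one_le_mul_of_one_le_of_one_le hDn1 hNW
    exact one_le_mul_of_one_le_of_one_le hB1 h3
  have hZκ : Z ^ κ = H * D ^ s := by
    rw [hZ, Real.mul_rpow (by positivity) hDN.le, hBκ, Real.mul_rpow (by positivity) hN0.le,
      ← Real.rpow_natCast D n, ← Real.rpow_mul hD0.le, hDH]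
    have : D ^ ((n : ℝ) * κ) = D ^ m * D ^ s := by
      rw [← Real.rpow_add hD0]
      congr 1
      rw [hm]; ring
    rw [this]
    ring
  -- the number of primes
  set k : ℕ := ⌊D⌋₊ with hk
  have hk1 : D < k + 1 := Nat.lt_floor_add_one D
  have hkD : D / 2 ≤ k := by linarith
  have hk0 : (0 : ℝ) < k := by linarith
  have hkle : (k : ℝ) ≤ D := Nat.floor_le hD0.le
  have hn₀k : n₀ ≤ k := by
    rw [hk]
    apply Nat.le_floor
    linarith
  have hQM : 0 < Q * M x := Nat.mul_pos hQ (hM x)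
  have hlogD : 0 < Real.log D := Real.log_pos (by linarith)
  have hlog : Real.log ((Q * M x : ℕ) : ℝ) ≤ A * Real.log k := by
    have h3 : Real.log N ≤ m / δ * Real.log D := by
      have := Real.log_le_log (by positivity) hNδ
      rw [Real.log_rpow hN0, Real.log_rpow hD0] at this
      rw [div_mul_eq_mul_div, le_div_iff₀ hδ0]
      linarith
    have hQ0 : (0 : ℝ) < Q := by exact_mod_cast hQ
    have h4 : Real.log ((Q * M x : ℕ) : ℝ) = Real.log Q + Real.log N := by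
      rw [Nat.cast_mul, Real.log_mul hQ0.ne' hN0.ne']
    have h5 : Real.log (Q : ℝ) ≤ Real.log D := Real.log_le_log hQ0 (by linarith)
    have h6 : Real.log D ≤ 2 * Real.log k := by
      have : D ≤ (k : ℝ) ^ 2 := by nlinarith
      have h7 := Real.log_le_log hD0 this
      rw [Real.log_pow] at h7
      push_cast at h7
      exact h7
    have h8 : 0 < m / δ + 1 := by positivity
    calc Real.log ((Q * M x : ℕ) : ℝ) ≤ (m / δ + 1) * Real.log D := by
          rw [h4]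
          linarith
      _ ≤ (m / δ + 1) * (2 * Real.log k) := by gcongr
      _ = A * Real.log k := by rw [hA]; ring
  have hgood := hn₀ k hn₀k _ hQM hlog
  -- the twists
  have hcard : (good k (Q * M x)).card ≤ (Exc M Δ κ Z).ncard := by
    have hinj : Set.InjOn (fun l : ℕ => M x * l ^ n) (good k (Q * M x) : Set ℕ) := by
      intro a _ b _ hab
      have h1 : a ^ n = b ^ n := Nat.eq_of_mul_eq_mul_left (hM x) hab
      exact Nat.pow_left_injective (by omega) h1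
    rw [← Finset.card_image_of_injOn hinj, ← Set.ncard_coe_finset]
    refine Set.ncard_le_ncard ?_ (exc_finite M Δ κ Z)
    intro y hy
    rw [Finset.coe_image] at hy
    obtain ⟨l, hl, rfl⟩ := hy
    rw [Finset.mem_coe, good, mem_filter, mem_range] at hl
    obtain ⟨hl1, hl2, hl3, hl4⟩ := hl
    obtain ⟨y, hy1, hy2⟩ := htw x l hl2 hl3 hl4
    have hlD : (l : ℝ) ≤ D := le_trans (by exact_mod_cast Nat.lt_succ_iff.mp hl1) hkle
    have hl0 : (0 : ℝ) < l := by exact_mod_cast hl2.pos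
    have hcast : ((M x * l ^ n : ℕ) : ℝ) = N * (l : ℝ) ^ n := by push_cast; rfl
    refine ⟨?_, y, hy1, ?_, ?_⟩
    · change ((M x * l ^ n : ℕ) : ℝ) ≤ Z
      rw [hcast, hZ]
      calc N * (l : ℝ) ^ n ≤ N * D ^ n := by gcongr
        _ = 1 * (D ^ n * N) := by ring
        _ ≤ B * (D ^ n * N) := by gcongr
    · change ((M x * l ^ n : ℕ) : ℝ) ^ κ < Δ y
      rw [hcast, hy2, Real.mul_rpow hN0.le (by positivity), ← Real.rpow_natCast (l : ℝ) n,
        ← Real.rpow_mul hl0.le]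
      have e1 : (l : ℝ) ^ ((n : ℝ) * κ) = (l : ℝ) ^ m * (l : ℝ) ^ s := by
        rw [← Real.rpow_add hl0]
        congr 1
        rw [hm]; ring
      have e2 : (l : ℝ) ^ m ≤ D ^ m := Real.rpow_le_rpow hl0.le hlD hm0.le
      rw [e1, ← mul_assoc]
      refine mul_lt_mul_of_pos_right ?_ (by positivity)
      calc N ^ κ * (l : ℝ) ^ m ≤ N ^ κ * D ^ m := by gcongr
        _ < 2 * N ^ κ * D ^ m := by
            have : 0 < N ^ κ * D ^ m := by positivity
            linarith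
        _ = H := hDH.symm
    · rw [hy2, hZκ]
      exact mul_le_mul_of_nonneg_left (Real.rpow_le_rpow hl0.le hlD hs) hH0.le
  -- the conclusion
  have c1 : (k : ℝ) ^ (1 - η) ≤ K1 * Z ^ θ := by
    calc (k : ℝ) ^ (1 - η) ≤ ((good k (Q * M x)).card : ℝ) := hgood
      _ ≤ ((Exc M Δ κ Z).ncard : ℝ) := by exact_mod_cast hcard
      _ ≤ K0 * Z ^ θ := hK0 _ hZ1
      _ ≤ K1 * Z ^ θ := by
          apply mul_le_mul_of_nonneg_right (le_max_left _ _) (by positivity)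
  have c2 : D ^ (1 - η) ≤ 2 * (k : ℝ) ^ (1 - η) := by
    calc D ^ (1 - η) ≤ (2 * (k : ℝ)) ^ (1 - η) :=
          Real.rpow_le_rpow hD0.le (by linarith) (by linarith)
      _ = 2 ^ (1 - η) * (k : ℝ) ^ (1 - η) := Real.mul_rpow (by norm_num) hk0.le
      _ ≤ 2 * (k : ℝ) ^ (1 - η) := by
          have : (2 : ℝ) ^ (1 - η) ≤ 2 ^ (1 : ℝ) :=
            Real.rpow_le_rpow_of_exponent_le (by norm_num) (by linarith)
          rw [Real.rpow_one] at this
          gcongr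
  have c3 : Z ^ θ = B ^ θ * D ^ (n * θ) * N ^ θ := by
    rw [hZ, Real.mul_rpow (by positivity) hDN.le, Real.mul_rpow (by positivity) hN0.le,
      ← Real.rpow_natCast D n, ← Real.rpow_mul hD0.le]
    ring
  have c4 : N ^ θ ≤ D ^ (m * θ / δ) := by
    calc N ^ θ = (N ^ δ) ^ (θ / δ) := by
          rw [← Real.rpow_mul hN0.le]
          congr 1
          field_simp
      _ ≤ (D ^ m) ^ (θ / δ) := Real.rpow_le_rpow (by positivity) hNδ (by positivity)
      _ = D ^ (m * θ / δ) := by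
          rw [← Real.rpow_mul hD0.le]
          congr 1
          ring
  have c5 : D ^ (1 - η) ≤ E * D ^ (n * θ + m * θ / δ) := by
    calc D ^ (1 - η) ≤ 2 * (k : ℝ) ^ (1 - η) := c2
      _ ≤ 2 * (K1 * Z ^ θ) := by gcongr
      _ = E * (D ^ (n * θ) * N ^ θ) := by rw [c3, hE]; ring
      _ ≤ E * (D ^ (n * θ) * D ^ (m * θ / δ)) := by gcongr
      _ = E * D ^ (n * θ + m * θ / δ) := by rw [← Real.rpow_add hD0]
  have c6 : D ^ (1 - η) = D ^ η * D ^ (n * θ + m * θ / δ) := by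
    rw [← Real.rpow_add hD0]
    congr 1
    rw [hη]
    ring
  have c7 : D ^ η ≤ E := by
    rw [c6] at c5
    exact le_of_mul_le_mul_right c5 (by positivity)
  have c8 : E < D ^ η := by
    calc E = (E ^ (1 / η)) ^ η := by
          rw [← Real.rpow_mul hE0.le, one_div_mul_cancel hη0.ne', Real.rpow_one]
      _ ≤ D₀ ^ η := Real.rpow_le_rpow (by positivity) hD₀E hη0.le
      _ < D ^ η := Real.rpow_lt_rpow hD₀0.le hDD₀ hη0
  linarith

/-- the trivial converse -/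
theorem exc_bounded {α : Type*} {M : α → ℕ} (hM : ∀ x, 1 ≤ M x) {Δ : α → ℝ} {κ₀ c : ℝ}
    (h : ∀ x, Δ x ≤ c * (M x : ℝ) ^ κ₀) {κ : ℝ} (hκ : κ₀ < κ) :
    ∃ C : ℝ, ∀ Z : ℝ, ((Exc M Δ κ Z).ncard : ℝ) ≤ C := by
  refine ⟨(⌊c ^ (1 / (κ - κ₀))⌋₊ + 1 : ℕ), fun Z => ?_⟩
  have h0 : 0 < κ - κ₀ := by linarith
  have hsub : Exc M Δ κ Z ⊆ (Finset.range (⌊c ^ (1 / (κ - κ₀))⌋₊ + 1) : Finset ℕ) := by
    rintro m ⟨_, x, hx, h1, _⟩
    rw [Finset.mem_coe, Finset.mem_range, Nat.lt_succ_iff]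
    apply Nat.le_floor
    have hm1 : (1 : ℝ) ≤ m := by rw [← hx]; exact_mod_cast hM x
    have hm0 : (0 : ℝ) < m := by linarith
    have h2 := h x
    rw [hx] at h2
    have h3 : (m : ℝ) ^ κ < c * (m : ℝ) ^ κ₀ := h1.trans_le h2
    have h4 : (m : ℝ) ^ (κ - κ₀) ≤ c := by
      rw [Real.rpow_sub hm0, div_le_iff₀ (by positivity)]
      exact h3.le
    calc (m : ℝ) = ((m : ℝ) ^ (κ - κ₀)) ^ (1 / (κ - κ₀)) := by
          rw [← Real.rpow_mul hm0.le, mul_one_div_cancel h0.ne', Real.rpow_one]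
      _ ≤ c ^ (1 / (κ - κ₀)) := Real.rpow_le_rpow (by positivity) h4 (by positivity)
  have := Set.ncard_le_ncard hsub (Finset.finite_toSet _)
  rw [Set.ncard_coe_finset, Finset.card_range] at this
  exact_mod_cast this

end Pool.Agent.Helper86.Hyp
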