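import Pool.Graph.R_seed8.W318.GlobalSzp

/-!
# Weierstrass models and quadratic twists: the places where the twisting factor is a unit
-/

set_option autoImplicit false

namespace Pool.Agent.Helper86.Hyp

open Polynomial NumberField IsDedekindDomain WithZero
open Pool.Agent.W318

section square

variable {k : Type*} [Field k] {E : Type*} [CommRing E] [Algebra k E]

theorem square {b c : RatFunc k} {ι : RatFunc k →+* E} {y : E} (h2 : (2 : RatFunc k) ≠ 0)
    (h : QData E b c ι y) : QData E 0 (4 * c + b ^ 2) ι (2 * y + ι b) := by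
  constructor
  · intro z
    obtain ⟨r, s, rfl⟩ := h.rep z
    refine ⟨r - s / 2 * b, s / 2, ?_⟩
    have e1 : ι s = ι (s / 2) * 2 := by
      have : (2 : E) = ι 2 := (map_ofNat ι 2).symm
      rw [this, ← map_mul, div_mul_cancel₀ _ h2]
    rw [map_sub, map_mul, e1]
    ring
  · intro r s hrs
    have e1 : ι (r + s * b) + ι (2 * s) * y = 0 := by
      rw [map_add, map_mul, map_mul, map_ofNat, ← hrs]
      ring
    obtain ⟨e2, e3⟩ := h.indep _ _ e1
    have hs : s = 0 := (mul_eq_zero.mp e3).resolve_left h2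
    rw [hs, zero_mul, add_zero] at e2
    exact ⟨e2, hs⟩
  · have := h.rel
    rw [map_zero, map_add, map_mul, map_pow, map_ofNat]
    linear_combination 4 * this
  · exact h.alg

end square

theorem funField_square {k : Type*} [Field k] [CharZero k] (f f₂ : k[X]) :
    Nonempty (FunField k (4 * f + f₂ ^ 2) 0 ≃ₐ[k] FunField k f f₂) := by
  have h2 : (2 : RatFunc k) ≠ 0 := two_ne_zero
  have h1 := quad_qdata (k := k) (algebraMap k[X] (RatFunc k) f₂) (algebraMap k[X] (RatFunc k) f)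
  have h3 := (square h2 h1).congr (map_zero (algebraMap k[X] (RatFunc k))).symm
  have h4 := h3.nonempty_equiv
  have e : 4 * algebraMap k[X] (RatFunc k) f + algebraMap k[X] (RatFunc k) f₂ ^ 2 =
      algebraMap k[X] (RatFunc k) (4 * f + f₂ ^ 2) := by
    rw [map_add, map_mul, map_pow, map_ofNat]
  rw [e] at h4
  exact h4

section

variable {K : Type} [Field K] [NumberField K]

theorem isModel_iff {g : ℕ} (hg : 2 ≤ g) {F : K[X]} (hF : IsHyp g F)
    (v : HeightOneSpectrum (𝓞 K)) (f f₂ : K[X]) :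
    IsModel g F v f f₂ ↔ (∀ i, v.valuation K (f.coeff i) ≤ 1) ∧
      (∀ i, v.valuation K (f₂.coeff i) ≤ 1) ∧ 2 * g + 1 ≤ max (2 * f₂.natDegree) f.natDegree ∧
      max (2 * f₂.natDegree) f.natDegree ≤ 2 * g + 2 ∧ Eqv (g + 1) F (4 * f + f₂ ^ 2) := by
  constructor
  · intro h
    obtain ⟨φ⟩ := h.iso
    exact ⟨h.int, h.int₂, h.lower, h.upper, bridge hg hF.1 hF.2 h.upper φ⟩
  · rintro ⟨h1, h2, h3, h4, h5⟩
    obtain ⟨φ⟩ := funField_square f f₂
    obtain ⟨ψ⟩ := unbridge (by have := hF.2; omega) h5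
    exact ⟨h1, h2, h3, h4, ⟨φ.symm.trans ψ⟩⟩

theorem IsHyp.of_eqv {g : ℕ} {F F' : K[X]} (hF : IsHyp g F) (he : Eqv (g + 1) F F') :
    IsHyp g F' := by
  have := he.good (by omega) hF.good
  exact ⟨this.1, by have := this.2; omega⟩

theorem isModel_congr {g : ℕ} (hg : 2 ≤ g) {F F' : K[X]} (hF : IsHyp g F)
    (he : Eqv (g + 1) F F') (v : HeightOneSpectrum (𝓞 K)) (f f₂ : K[X]) :
    IsModel g F v f f₂ ↔ IsModel g F' v f f₂ := by
  have hd : F.natDegree ≤ g + 1 + (g + 1) := by have := hF.2; omega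
  rw [isModel_iff hg hF, isModel_iff hg (IsHyp.of_eqv hF he)]
  constructor
  · rintro ⟨h1, h2, h3, h4, h5⟩
    exact ⟨h1, h2, h3, h4, (he.symm hd).trans he.natDegree_le h5⟩
  · rintro ⟨h1, h2, h3, h4, h5⟩
    exact ⟨h1, h2, h3, h4, he.trans hd h5⟩

theorem minExp_congr {g : ℕ} (hg : 2 ≤ g) {F F' : K[X]} (hF : IsHyp g F)
    (he : Eqv (g + 1) F F') (v : HeightOneSpectrum (𝓞 K)) : minExp g F v = minExp g F' v := by
  unfold minExp
  congr 1
  ext m
  constructor
  · rintro ⟨f, f₂, h1, h2⟩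
    exact ⟨f, f₂, (isModel_congr hg hF he v f f₂).mp h1, h2⟩
  · rintro ⟨f, f₂, h1, h2⟩
    exact ⟨f, f₂, (isModel_congr hg hF he v f f₂).mpr h1, h2⟩

theorem isHyp_C_mul {g : ℕ} {F : K[X]} (hF : IsHyp g F) {d : K} (hd : d ≠ 0) :
    IsHyp g (C d * F) := by
  refine ⟨?_, ?_⟩
  · have huC : IsUnit (C d : K[X]) := isUnit_C.mpr hd.isUnit
    rw [(associated_isUnit_mul_left_iff huC).mpr (Associated.refl _) |>.squarefree_iff]
    exact hF.1
  · rw [natDegree_C_mul hd]
    exact hF.2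

theorem eqv_C_mul {h : ℕ} {F F' : K[X]} (he : Eqv h F F') (d : K) :
    Eqv h (C d * F) (C d * F') := by
  obtain ⟨a, b, c, e, l, h1, h2, rfl⟩ := he
  refine ⟨a, b, c, e, l, h1, h2, ?_⟩
  rw [act_C_mul]
  ring

theorem eqv_sq_mul {h : ℕ} {F : K[X]} (hF : F.natDegree ≤ h + h) {d : K} (hd : d ≠ 0) :
    Eqv h F (C d * (C d * F)) := by
  refine ⟨1, 0, 0, 1, d, by simp, hd, ?_⟩
  rw [act_one _ _ hF, C_pow]
  ring

theorem isModel_twist {g : ℕ} (hg : 2 ≤ g) {F : K[X]} (hF : IsHyp g F)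
    (v : HeightOneSpectrum (𝓞 K)) {d : K} (hd : v.valuation K d = 1)
    (hd4 : v.valuation K ((d - 1) / 4) ≤ 1) {f f₂ : K[X]} (hM : IsModel g F v f f₂) :
    IsModel g (C d * F) v (C d * f + C ((d - 1) / 4) * f₂ ^ 2) f₂ ∧
      modelDisc g (C d * f + C ((d - 1) / 4) * f₂ ^ 2) f₂ =
        d ^ (4 * g + 2) * modelDisc g f f₂ := by
  have hd0 : d ≠ 0 := by
    rintro rfl
    rw [map_zero] at hd
    exact zero_ne_one hd
  rw [isModel_iff hg hF] at hM
  obtain ⟨h1, h2, h3, h4, h5⟩ := hM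
  have hsq : ∀ i, v.valuation K ((f₂ ^ 2).coeff i) ≤ 1 := by
    have := int_comb v (f := 0) (fun i => by simp) h2
    simpa using this
  have hform : 4 * (C d * f + C ((d - 1) / 4) * f₂ ^ 2) + f₂ ^ 2 = C d * (4 * f + f₂ ^ 2) := by
    have e4 : (4 : K[X]) = C 4 := (map_ofNat (C : K →+* K[X]) 4).symm
    have e1 : (4 : K[X]) * C ((d - 1) / 4) = C d - 1 := by
      rw [e4, ← C_mul, mul_div_cancel₀ _ (by norm_num : (4 : K) ≠ 0), C_sub, C_1]
    linear_combination f₂ ^ 2 * e1
  constructor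
  · rw [isModel_iff hg (isHyp_C_mul hF hd0)]
    refine ⟨fun i => ?_, h2, ?_, ?_, ?_⟩
    · rw [coeff_add, coeff_C_mul, coeff_C_mul]
      refine (Valuation.map_add _ _ _).trans (max_le ?_ ?_)
      · rw [map_mul, hd, one_mul]
        exact h1 i
      · rw [map_mul]
        exact mul_le_one' hd4 (hsq i)
    · by_cases hc : 2 * g + 1 ≤ 2 * f₂.natDegree
      · exact hc.trans (le_max_left _ _)
      · push Not at hc
        have h6 : 2 * g + 1 ≤ f.natDegree := by
          rcases le_max_iff.mp h3 with h | h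
          · omega
          · exact h
        refine le_trans ?_ (le_max_right _ _)
        have h7 : (C ((d - 1) / 4) * f₂ ^ 2).natDegree < (C d * f).natDegree := by
          rw [natDegree_C_mul hd0]
          refine lt_of_le_of_lt (natDegree_C_mul_le _ _) ?_
          refine lt_of_le_of_lt natDegree_pow_le ?_
          omega
        rw [natDegree_add_eq_left_of_natDegree_lt h7, natDegree_C_mul hd0]
        exact h6
    · refine max_le ((le_max_left _ _).trans h4) ?_
      refine (natDegree_add_le _ _).trans (max_le ?_ ?_)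
      · exact (natDegree_C_mul_le _ _).trans ((le_max_right _ _).trans h4)
      · exact (natDegree_C_mul_le _ _).trans (natDegree_pow_le.trans ((le_max_left _ _).trans h4))
    · rw [hform]
      exact eqv_C_mul h5 d
  · have hgood := h5.good (by omega) hF.good
    have hg' : GoodForm (g + 1) (C (1 / 4) * (4 * f + f₂ ^ 2)) := by
      have h9 : IsHyp g (4 * f + f₂ ^ 2) := ⟨hgood.1, by have := hgood.2; omega⟩
      exact (isHyp_C_mul h9 (by norm_num : (1 / 4 : K) ≠ 0)).good
    rw [modelDisc_eq, modelDisc_eq, four_mul_form, four_mul_form, hform, ← mul_assoc, ← C_mul,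
      mul_comm (1 / 4 : K) d, C_mul, mul_assoc, discN_C_mul (by omega) hd0 hg'.2,
      show 2 * (g + 1 + (g + 1) - 1) = 4 * g + 2 by omega]
    ring

theorem minExp_twist_le {g : ℕ} (hg : 2 ≤ g) {F : K[X]} (hF : IsHyp g F)
    (v : HeightOneSpectrum (𝓞 K)) {d : K} (hd : v.valuation K d = 1)
    (hd4 : v.valuation K ((d - 1) / 4) ≤ 1) : minExp g (C d * F) v ≤ minExp g F v := by
  obtain ⟨f, f₂, hM, hv⟩ := exists_min_model hF v
  obtain ⟨h1, h2⟩ := isModel_twist hg hF v hd hd4 hM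
  refine Nat.sInf_le ⟨_, f₂, h1, ?_⟩
  rw [h2, map_mul, map_pow, hd, one_pow, one_mul, hv]

/-- the exponent of the minimal discriminant does not change at the unramified places -/
theorem minExp_twist {g : ℕ} (hg : 2 ≤ g) {F : K[X]} (hF : IsHyp g F)
    (v : HeightOneSpectrum (𝓞 K)) {d : K} (hd : v.valuation K d = 1)
    (hd4 : v.valuation K ((d - 1) / 4) ≤ 1) : minExp g (C d * F) v = minExp g F v := by
  have hd0 : d ≠ 0 := by
    rintro rfl
    rw [map_zero] at hd
    exact zero_ne_one hd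
  refine le_antisymm (minExp_twist_le hg hF v hd hd4) ?_
  have h1 := minExp_twist_le hg (isHyp_C_mul hF hd0) v hd hd4
  rwa [← minExp_congr hg hF (eqv_sq_mul (by have := hF.2; omega) hd0)] at h1

end

end Pool.Agent.Helper86.Hyp
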