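import Pool.Agent.Helper86.Hyp.Ram

/-!
# The minimal discriminant and the places of bad reduction of a quadratic twist by an integer
-/

set_option autoImplicit false

namespace Pool.Agent.Helper86.Hyp

open Polynomial Finset NumberField IsDedekindDomain WithZero
open Pool.Agent.W318

section

variable {K : Type} [Field K] [NumberField K]

theorem mem_of_val_ne_one {v : HeightOneSpectrum (𝓞 K)} {x : 𝓞 K}
    (h : v.valuation K (x : K) ≠ 1) : x ∈ v.asIdeal := by
  have h1 : v.valuation K (x : K) ≤ 1 := v.valuation_le_one x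
  have h2 : v.valuation K (x : K) ≤ exp (-((1 : ℕ) : ℤ)) := by
    by_cases hx : (x : K) = 0
    · rw [hx, map_zero]; exact zero_le
    · obtain ⟨k, hk⟩ := exists_exp v hx
      rw [hk, ← exp_zero, exp_le_exp] at h1
      rw [hk] at h ⊢
      rw [exp_le_exp]
      have : k ≠ 0 := by
        rintro rfl
        exact h exp_zero
      push_cast
      omega
  have := (val_le_iff_mem v x 1).mp h2
  rwa [pow_one] at this

theorem not_both {v : HeightOneSpectrum (𝓞 K)} {m n : ℤ} (hmn : IsCoprime m n)
    (h1 : ((m : ℤ) : 𝓞 K) ∈ v.asIdeal) (h2 : ((n : ℤ) : 𝓞 K) ∈ v.asIdeal) : False := by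
  obtain ⟨a, b, hab⟩ := hmn
  apply v.isPrime.ne_top
  rw [Ideal.eq_top_iff_one]
  have h3 : (1 : 𝓞 K) = (a : 𝓞 K) * m + (b : 𝓞 K) * n := by
    exact_mod_cast (congrArg (Int.cast : ℤ → 𝓞 K) hab).symm
  rw [h3]
  exact v.asIdeal.add_mem (v.asIdeal.mul_mem_left _ h1) (v.asIdeal.mul_mem_left _ h2)

theorem val_prime {p : ℕ} (hp : p.Prime) (hd : ¬ p ∣ (discr K).natAbs)
    (v : HeightOneSpectrum (𝓞 K)) :
    v.valuation K (p : K) = 1 ∨ v.valuation K (p : K) = exp (-1 : ℤ) := by
  by_cases h1 : v.valuation K (p : K) = 1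
  · exact Or.inl h1
  right
  have hcast : (((p : 𝓞 K)) : K) = (p : K) := by simp
  have hmem : ((p : ℤ) : 𝓞 K) ∈ v.asIdeal := by
    have := mem_of_val_ne_one (v := v) (x := (p : 𝓞 K)) (by rwa [hcast])
    exact_mod_cast this
  have hp0 : (p : K) ≠ 0 := Nat.cast_ne_zero.mpr hp.ne_zero
  obtain ⟨k, hk⟩ := exists_exp v hp0
  have hle : v.valuation K (p : K) ≤ 1 := by
    rw [← hcast]
    exact v.valuation_le_one _
  rw [hk, ← exp_zero, exp_le_exp] at hle
  rw [hk] at h1 ⊢
  have hk0 : k ≠ 0 := by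
    rintro rfl
    exact h1 exp_zero
  by_contra hk1
  have hk2 : k ≤ -2 := by
    have : k ≠ -1 := fun h => hk1 (by rw [h])
    omega
  have hmem2 : (p : 𝓞 K) ∈ v.asIdeal ^ 2 := by
    apply (val_le_iff_mem v _ 2).mp
    rw [hcast, hk, exp_le_exp]
    exact_mod_cast hk2
  have hpmax : (Ideal.span {(p : ℤ)}).IsMaximal :=
    PrincipalIdealRing.isMaximal_of_irreducible (Nat.prime_iff_prime_int.mp hp).irreducible
  have hdvd : v.asIdeal ^ 2 ∣ (Ideal.span {(p : ℤ)}).map (algebraMap ℤ (𝓞 K)) := by
    rw [Ideal.map_span, Set.image_singleton, Ideal.dvd_span_singleton]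
    simpa using hmem2
  have h3 := pow_sub_one_dvd_differentIdeal_aux ℤ ℚ K v.asIdeal (e := 2) (by norm_num)
    (by
      rw [Ne, Ideal.span_singleton_eq_bot]
      exact_mod_cast hp.ne_zero) hdvd
  rw [show 2 - 1 = 1 from rfl, pow_one] at h3
  have h4 : ((discr K : ℤ) : 𝓞 K) ∈ v.asIdeal :=
    (Ideal.dvd_iff_le.mp h3) (discr_mem_differentIdeal K (𝓞 K))
  refine not_both (v := v) ?_ hmem h4
  rw [Int.isCoprime_iff_nat_coprime]
  simpa using (Nat.Prime.coprime_iff_not_dvd hp).mpr hd

theorem val_squarefree {D : ℕ} (hD : Squarefree D) (hd : Nat.Coprime D (discr K).natAbs)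
    (v : HeightOneSpectrum (𝓞 K)) :
    v.valuation K (D : K) = 1 ∨ v.valuation K (D : K) = exp (-1 : ℤ) := by
  by_cases h1 : v.valuation K (D : K) = 1
  · exact Or.inl h1
  right
  have hD0 : D ≠ 0 := hD.ne_zero
  -- a prime divisor with nontrivial valuation
  obtain ⟨p, hp, hpD, hpv⟩ : ∃ p : ℕ, p.Prime ∧ p ∣ D ∧ v.valuation K (p : K) ≠ 1 := by
    by_contra hcon
    push Not at hcon
    apply h1
    rw [← Nat.prod_primeFactorsList hD0]
    have : ∀ l : List ℕ, (∀ p ∈ l, v.valuation K (p : K) = 1) →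
        v.valuation K ((l.prod : ℕ) : K) = 1 := by
      intro l
      induction l with
      | nil => intro _; simp
      | cons a l ih =>
        intro hl
        rw [List.prod_cons, Nat.cast_mul, map_mul, hl a List.mem_cons_self, one_mul]
        exact ih fun p hp => hl p (List.mem_cons_of_mem _ hp)
    exact this _ fun p hp => hcon p (Nat.prime_of_mem_primeFactorsList hp)
      (Nat.dvd_of_mem_primeFactorsList hp)
  obtain ⟨m, rfl⟩ := hpD
  have hcop : Nat.Coprime p m := Nat.coprime_of_squarefree_mul hD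
  have hpd : ¬ p ∣ (discr K).natAbs := by
    have : Nat.Coprime p (discr K).natAbs := Nat.Coprime.coprime_mul_right hd
    exact (Nat.Prime.coprime_iff_not_dvd hp).mp this
  have h2 : v.valuation K (m : K) = 1 := by
    by_contra hm
    have e1 : ((p : ℤ) : 𝓞 K) ∈ v.asIdeal := by
      have := mem_of_val_ne_one (v := v) (x := (p : 𝓞 K)) (by simpa using hpv)
      exact_mod_cast this
    have e2 : ((m : ℤ) : 𝓞 K) ∈ v.asIdeal := by
      have := mem_of_val_ne_one (v := v) (x := (m : 𝓞 K)) (by simpa using hm)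
      exact_mod_cast this
    exact not_both (Nat.isCoprime_iff_coprime.mpr hcop) e1 e2
  rw [Nat.cast_mul, map_mul, h2, mul_one]
  exact (val_prime hp hpd v).resolve_left hpv

/-- the product of the norms of the places where an integral element has valuation one -/
theorem finprod_norm {x : 𝓞 K} (hx : x ≠ 0)
    (h : ∀ v : HeightOneSpectrum (𝓞 K), v.valuation K (x : K) = 1 ∨
      v.valuation K (x : K) = exp (-1 : ℤ)) :
    ∏ᶠ v : HeightOneSpectrum (𝓞 K),
      (if v.valuation K (x : K) = 1 then 1 else Ideal.absNorm v.asIdeal) =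
        (Algebra.norm ℤ x).natAbs := by
  classical
  have hs : Ideal.span {x} ≠ 0 := by simp [hx]
  rw [← Ideal.absNorm_span_singleton]
  conv_rhs => rw [← Ideal.finprod_heightOneSpectrum_factorization hs]
  have h1 := (Ideal.absNorm (S := 𝓞 K)).toMonoidHom.map_finprod
    (Ideal.hasFiniteMulSupport hs)
  have h2 : Ideal.absNorm (∏ᶠ v : HeightOneSpectrum (𝓞 K), v.maxPowDividing (Ideal.span {x})) =
      ∏ᶠ v : HeightOneSpectrum (𝓞 K), Ideal.absNorm (v.maxPowDividing (Ideal.span {x})) := h1
  rw [h2]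
  refine finprod_congr fun v => ?_
  rw [HeightOneSpectrum.maxPowDividing, map_pow]
  have h3 : v.valuation K (x : K) = exp
      (-(Associates.mk v.asIdeal).count (Associates.mk (Ideal.span {x} : Ideal (𝓞 K))).factors : ℤ) := by
    have := v.valuation_of_algebraMap (K := K) x
    rw [← v.intValuation_if_neg hx]
    exact this
  rcases h v with h4 | h4
  · rw [if_pos h4]
    rw [h4, ← exp_zero, exp_inj] at h3
    have : (Associates.mk v.asIdeal).count (Associates.mk (Ideal.span {x} : Ideal (𝓞 K))).factors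
        = 0 := by omega
    rw [this, pow_zero]
  · rw [if_neg]
    · rw [h4, exp_inj] at h3
      have : (Associates.mk v.asIdeal).count (Associates.mk (Ideal.span {x} : Ideal (𝓞 K))).factors
          = 1 := by omega
      rw [this, pow_one]
    · rw [h4, ← exp_zero, exp_inj]
      norm_num

theorem finprod_nat {D : ℕ} (hD : Squarefree D) (hd : Nat.Coprime D (discr K).natAbs) :
    ∏ᶠ v : HeightOneSpectrum (𝓞 K),
      (if v.valuation K (D : K) = 1 then 1 else Ideal.absNorm v.asIdeal) =
        D ^ Module.finrank ℚ K := by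
  have hcast : (((D : 𝓞 K)) : K) = (D : K) := by simp
  have h1 := finprod_norm (K := K) (x := (D : 𝓞 K)) (by exact_mod_cast hD.ne_zero) (by
    rw [hcast]
    exact val_squarefree hD hd)
  rw [hcast] at h1
  rw [h1]
  have h2 : Algebra.norm ℤ (D : 𝓞 K) = (D : ℤ) ^ Module.finrank ℚ K := by
    have := Algebra.norm_algebraMap_of_basis (RingOfIntegers.basis K) (D : ℤ)
    rw [map_natCast] at this
    rw [this, ← RingOfIntegers.rank K, Module.finrank_eq_card_basis (RingOfIntegers.basis K)]
  rw [h2, Int.natAbs_pow, Int.natAbs_natCast]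

/-- the number `D` or `-D` which is one modulo four, for odd `D` -/
def tw (D : ℕ) : ℤ := if D % 4 = 1 then D else -D

theorem tw_mod {D : ℕ} (hD : Odd D) : ∃ m : ℤ, tw D = 4 * m + 1 := by
  unfold tw
  obtain ⟨k, hk⟩ := hD
  split_ifs with h
  · exact ⟨(D : ℤ) / 4, by omega⟩
  · exact ⟨(-(D : ℤ)) / 4, by omega⟩

theorem val_tw (D : ℕ) (v : HeightOneSpectrum (𝓞 K)) :
    v.valuation K ((tw D : ℤ) : K) = v.valuation K (D : K) := by
  unfold tw
  split_ifs
  · simp
  · push_cast
    rw [Valuation.map_neg]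

theorem val_quarter {D : ℕ} (hD : Odd D) (v : HeightOneSpectrum (𝓞 K)) :
    v.valuation K ((((tw D : ℤ) : K) - 1) / 4) ≤ 1 := by
  obtain ⟨m, hm⟩ := tw_mod hD
  have : (((tw D : ℤ) : K) - 1) / 4 = (((m : ℤ) : 𝓞 K) : K) := by
    rw [hm]
    push_cast
    rw [add_sub_cancel_right, mul_div_cancel_left₀ _ (by norm_num : (4 : K) ≠ 0)]
    exact (map_intCast (algebraMap (𝓞 K) K) m).symm
  rw [this]
  exact v.valuation_le_one _

theorem tw_ne_zero {D : ℕ} (hD : D ≠ 0) : ((tw D : ℤ) : K) ≠ 0 := by
  unfold tw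
  split_ifs
  · simpa using hD
  · push_cast
    simpa using hD

theorem mem_nat_of_val {v : HeightOneSpectrum (𝓞 K)} {D : ℕ}
    (h : v.valuation K (D : K) ≠ 1) : ((D : ℤ) : 𝓞 K) ∈ v.asIdeal := by
  have := mem_of_val_ne_one (v := v) (x := (D : 𝓞 K)) (by simpa using h)
  exact_mod_cast this

theorem absNorm_dvd_badNorm {g : ℕ} {F : K[X]} (hF : IsHyp g F) {v : HeightOneSpectrum (𝓞 K)}
    (hv : minExp g F v ≠ 0) : Ideal.absNorm v.asIdeal ∣ badNorm g F := by
  classical
  have hfin := finite_bad hF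
  rw [badNorm_eq hfin.toFinset (fun v => by simp)]
  exact Finset.dvd_prod_of_mem _ (by simpa using hv)

theorem good_of_coprime {g : ℕ} {F : K[X]} (hF : IsHyp g F) {D : ℕ}
    (hb : Nat.Coprime D (badNorm g F)) {v : HeightOneSpectrum (𝓞 K)}
    (hv : v.valuation K (D : K) ≠ 1) : minExp g F v = 0 := by
  by_contra hne
  refine not_both (v := v) (Nat.isCoprime_iff_coprime.mpr hb) (mem_nat_of_val hv) ?_
  obtain ⟨c, hc⟩ := absNorm_dvd_badNorm hF hne
  rw [hc]
  push_cast
  exact v.asIdeal.mul_mem_right _ (Ideal.absNorm_mem v.asIdeal)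

theorem two_of_odd {D : ℕ} (hD : Odd D) {v : HeightOneSpectrum (𝓞 K)}
    (hv : v.valuation K (D : K) ≠ 1) : v.valuation K (2 : K) = 1 := by
  by_contra hne
  have h2 : v.valuation K ((2 : ℕ) : K) ≠ 1 := by simpa using hne
  exact not_both (v := v) (Nat.isCoprime_iff_coprime.mpr hD.coprime_two_right)
    (mem_nat_of_val hv) (mem_nat_of_val h2)

/-- the exponents of the minimal discriminant of the twist -/
theorem minExp_tw {g : ℕ} (hg : 2 ≤ g) {F : K[X]} (hF : IsHyp g F) {D : ℕ}
    (hD : Squarefree D) (hodd : Odd D) (hd : Nat.Coprime D (discr K).natAbs)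
    (hb : Nat.Coprime D (badNorm g F)) (v : HeightOneSpectrum (𝓞 K)) :
    minExp g (C ((tw D : ℤ) : K) * F) v =
      if v.valuation K (D : K) = 1 then minExp g F v else 4 * g + 2 := by
  split_ifs with h
  · exact minExp_twist hg hF v (by rw [val_tw, h]) (val_quarter hodd v)
  · refine minExp_ram hg hF v (two_of_odd hodd h) ?_ (good_of_coprime hF hb h)
    rw [val_tw]
    exact (val_squarefree hD hd v).resolve_left h

/-- **the norms of the minimal discriminant and of the bad places of the twist** -/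
theorem norm_tw {g : ℕ} (hg : 2 ≤ g) {F : K[X]} (hF : IsHyp g F) {D : ℕ}
    (hD : Squarefree D) (hodd : Odd D) (hd : Nat.Coprime D (discr K).natAbs)
    (hb : Nat.Coprime D (badNorm g F)) :
    badNorm g (C ((tw D : ℤ) : K) * F) = badNorm g F * D ^ Module.finrank ℚ K ∧
      discNorm g (C ((tw D : ℤ) : K) * F) =
        discNorm g F * (D ^ Module.finrank ℚ K) ^ (4 * g + 2) := by
  classical
  have hfin := finite_bad hF
  have hD0 : (D : K) ≠ 0 := Nat.cast_ne_zero.mpr hD.ne_zero
  have hfinD := finite_val_ne_one hD0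
  have hs1 : (Function.mulSupport fun v : HeightOneSpectrum (𝓞 K) =>
      if minExp g F v = 0 then 1 else Ideal.absNorm v.asIdeal).Finite := by
    refine hfin.subset fun v hv => ?_
    rw [Function.mem_mulSupport] at hv
    intro h0
    rw [if_pos h0] at hv
    exact hv rfl
  have hs2 : (Function.mulSupport fun v : HeightOneSpectrum (𝓞 K) =>
      if v.valuation K (D : K) = 1 then 1 else Ideal.absNorm v.asIdeal).Finite := by
    refine hfinD.subset fun v hv => ?_
    rw [Function.mem_mulSupport] at hv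
    intro h0
    rw [if_pos h0] at hv
    exact hv rfl
  have hs3 : (Function.mulSupport fun v : HeightOneSpectrum (𝓞 K) =>
      Ideal.absNorm v.asIdeal ^ minExp g F v).Finite := by
    refine hfin.subset fun v hv => ?_
    rw [Function.mem_mulSupport] at hv
    intro h0
    rw [h0, pow_zero] at hv
    exact hv rfl
  have hs4 : (Function.mulSupport fun v : HeightOneSpectrum (𝓞 K) =>
      (if v.valuation K (D : K) = 1 then 1 else Ideal.absNorm v.asIdeal) ^ (4 * g + 2)).Finite := by
    refine hfinD.subset fun v hv => ?_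
    rw [Function.mem_mulSupport] at hv
    intro h0
    rw [if_pos h0, one_pow] at hv
    exact hv rfl
  constructor
  · unfold badNorm
    rw [← finprod_nat (K := K) hD hd, ← finprod_mul_distrib hs1 hs2]
    refine finprod_congr fun v => ?_
    rw [minExp_tw hg hF hD hodd hd hb v]
    by_cases h : v.valuation K (D : K) = 1
    · rw [if_pos h, if_pos h, mul_one]
    · rw [if_neg h, if_neg h, if_pos (good_of_coprime hF hb h), one_mul, if_neg (by omega)]
  · unfold discNorm
    rw [← finprod_nat (K := K) hD hd, finprod_pow hs2, ← finprod_mul_distrib hs3 hs4]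
    refine finprod_congr fun v => ?_
    rw [minExp_tw hg hF hD hodd hd hb v]
    by_cases h : v.valuation K (D : K) = 1
    · rw [if_pos h, if_pos h, one_pow, mul_one]
    · rw [if_neg h, if_neg h, good_of_coprime hF hb h, pow_zero, one_mul]

end

end Pool.Agent.Helper86.Hyp
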