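import Pool.Agent.Helper86.Hyp.Char

/-!
# The exponent of the minimal discriminant of a ramified twist of a curve of good reduction
-/

set_option autoImplicit false

namespace Pool.Agent.Helper86.Hyp

open Polynomial Finset NumberField IsDedekindDomain WithZero
open Pool.Agent.W318

/-- a combinatorial inequality -/
theorem prod_ge {h : ℕ} (hh : 2 ≤ h) (n : Fin (h + h) → ℝ) (hn : ∀ i, 0 ≤ n i) {m D : ℝ}
    (hm : 0 ≤ m) (h1 : ∀ i j, i ≠ j → m ≤ max (n i) (n j))
    (h2 : ∀ i j, i ≠ j → D ≤ n i * n j) : D * m ^ (2 * h - 2) ≤ ∏ i, n i := by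
  classical
  have hne : (univ : Finset (Fin (h + h))).Nonempty := ⟨⟨0, by omega⟩, mem_univ _⟩
  obtain ⟨i₀, _, hi₀⟩ := exists_min_image univ n hne
  have h3 : ∀ j, j ≠ i₀ → m ≤ n j := by
    intro j hj
    have h4 := h1 j i₀ hj
    rwa [max_eq_left (hi₀ j (mem_univ _))] at h4
  obtain ⟨j₀, hj₀⟩ : ∃ j : Fin (h + h), j ≠ i₀ := by
    have : Nontrivial (Fin (h + h)) := Fin.nontrivial_iff_two_le.mpr (by omega)
    exact exists_ne i₀
  have hmem : j₀ ∈ univ.erase i₀ := mem_erase.mpr ⟨hj₀, mem_univ _⟩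
  rw [← Finset.mul_prod_erase univ n (mem_univ i₀), ← Finset.mul_prod_erase _ n hmem, ← mul_assoc]
  have hcard : ((univ.erase i₀).erase j₀).card = 2 * h - 2 := by
    rw [card_erase_of_mem hmem, card_erase_of_mem (mem_univ _), card_univ, Fintype.card_fin]
    omega
  have h5 : m ^ (2 * h - 2) ≤ ∏ j ∈ (univ.erase i₀).erase j₀, n j := by
    rw [← hcard, ← Finset.prod_const]
    refine Finset.prod_le_prod (fun _ _ => hm) fun j hj => h3 j ?_
    exact (mem_erase.mp (mem_erase.mp hj).2).1
  refine mul_le_mul (h2 i₀ j₀ hj₀.symm) h5 (pow_nonneg hm _) (mul_nonneg (hn _) (hn _))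

/-- a form of unit discriminant: the roots are different modulo the prime -/
theorem unit_form {M : Type*} [Field M] {A : AbsoluteValue M ℝ} (hna : IsNonarchimedean A)
    {h : ℕ} (hh : 2 ≤ h) {u : M} {α β : Fin (h + h) → M} (hu : u ≠ 0)
    (huni : ∀ i, max (A (α i)) (A (β i)) = 1)
    (hne : ∀ i j, i ≠ j → α i * β j - α j * β i ≠ 0)
    (hint : (C u * ∏ i, (C (α i) * X + C (β i))).gaussNorm A 1 ≤ 1)
    (hdisc : A (discN (h + h) (C u * ∏ i, (C (α i) * X + C (β i)))) = 1) :
    A u = 1 ∧ ∀ i j, i ≠ j → A (α i * β j - α j * β i) = 1 := by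
  classical
  have h1 := abs_discN_prod_lin A hu α β hne (by rw [Fintype.card_fin]; omega)
  rw [Fintype.card_fin, hdisc] at h1
  rw [gaussNorm_prod_lin hna] at hint
  have hu1 : A u ≤ 1 := by simpa [huni] using hint
  have hb : ∀ i j, A (α i * β j - α j * β i) ≤ 1 := by
    intro i j
    refine (na_sub_le hna _ _).trans (max_le ?_ ?_)
    · rw [map_mul]
      exact mul_le_one₀ ((le_max_left _ _).trans (huni i).le) (A.nonneg _)
        ((le_max_right _ _).trans (huni j).le)
    · rw [map_mul]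
      exact mul_le_one₀ ((le_max_left _ _).trans (huni j).le) (A.nonneg _)
        ((le_max_right _ _).trans (huni i).le)
  have hP1 : ∏ i, ∏ j ∈ univ.erase i, A (α i * β j - α j * β i) ≤ 1 := by
    refine Finset.prod_le_one (fun i _ => Finset.prod_nonneg fun j _ => A.nonneg _) fun i _ => ?_
    exact Finset.prod_le_one (fun j _ => A.nonneg _) fun j _ => hb i j
  have hP0 : 0 ≤ ∏ i, ∏ j ∈ univ.erase i, A (α i * β j - α j * β i) :=
    Finset.prod_nonneg fun i _ => Finset.prod_nonneg fun j _ => A.nonneg _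
  have hU1 : A u ^ (2 * (h + h - 1)) ≤ 1 := pow_le_one₀ (A.nonneg _) hu1
  have hU0 : 0 ≤ A u ^ (2 * (h + h - 1)) := pow_nonneg (A.nonneg _) _
  have hU : A u ^ (2 * (h + h - 1)) = 1 := by nlinarith
  have hP : ∏ i, ∏ j ∈ univ.erase i, A (α i * β j - α j * β i) = 1 := by nlinarith
  refine ⟨?_, ?_⟩
  · rwa [pow_eq_one_iff_of_nonneg (A.nonneg _) (by omega)] at hU
  · intro i j hij
    refine le_antisymm (hb i j) ?_
    by_contra hlt
    push Not at hlt
    have h3 : ∏ i, ∏ j ∈ univ.erase i, A (α i * β j - α j * β i) < 1 := by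
      rw [← Finset.mul_prod_erase univ _ (mem_univ i),
        ← Finset.mul_prod_erase (univ.erase i) _ (mem_erase.mpr ⟨hij.symm, mem_univ j⟩)]
      have h4 : ∏ x ∈ (univ.erase i).erase j, A (α i * β x - α x * β i) ≤ 1 :=
        Finset.prod_le_one (fun j _ => A.nonneg _) fun j _ => hb i j
      have h5 : ∏ x ∈ univ.erase i, ∏ y ∈ univ.erase x, A (α x * β y - α y * β x) ≤ 1 :=
        Finset.prod_le_one (fun i _ => Finset.prod_nonneg fun j _ => A.nonneg _) fun i _ =>
          Finset.prod_le_one (fun j _ => A.nonneg _) fun j _ => hb i j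
      have h4' : 0 ≤ ∏ x ∈ (univ.erase i).erase j, A (α i * β x - α x * β i) :=
        Finset.prod_nonneg fun j _ => A.nonneg _
      have h5' : 0 ≤ ∏ x ∈ univ.erase i, ∏ y ∈ univ.erase x, A (α x * β y - α y * β x) :=
        Finset.prod_nonneg fun i _ => Finset.prod_nonneg fun j _ => A.nonneg _
      calc _ ≤ A (α i * β j - α j * β i) * 1 * 1 := by
            refine mul_le_mul (mul_le_mul_of_nonneg_left h4 (A.nonneg _)) h5 h5' ?_
            exact mul_nonneg (A.nonneg _) zero_le_one
        _ < 1 := by rw [mul_one, mul_one]; exact hlt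
    rw [hP] at h3
    exact lt_irrefl _ h3

/-- the size of a substitution of a form of unit discriminant -/
theorem act_size {M : Type*} [Field M] [Infinite M] {A : AbsoluteValue M ℝ}
    (hna : IsNonarchimedean A)
    {h : ℕ} (hh : 2 ≤ h) {u : M} {α β : Fin (h + h) → M}
    (huni : ∀ i, max (A (α i)) (A (β i)) = 1)
    (hbr : ∀ i j, i ≠ j → A (α i * β j - α j * β i) = 1)
    {a b c d : M} (hdet : a * d - b * c ≠ 0) {l : M} {m : ℝ} (hm0 : 0 ≤ m)
    (hm : m = max (max (A a) (A b)) (max (A c) (A d)))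
    (hint : (C (l ^ 2) * act (h + h) a b c d
      (C u * ∏ i, (C (α i) * X + C (β i)))).gaussNorm A 1 ≤ 1) :
    A l ^ 2 * A u * (A (a * d - b * c) * m ^ (2 * h - 2)) ≤ 1 := by
  rw [sq_act_prod hdet, gaussNorm_prod_lin hna, map_mul, map_pow] at hint
  refine le_trans ?_ hint
  refine mul_le_mul_of_nonneg_left ?_ (mul_nonneg (pow_nonneg (A.nonneg _) _) (A.nonneg _))
  refine prod_ge hh _ (fun i => (A.nonneg _).trans (le_max_left _ _)) hm0 ?_ ?_
  · intro i j hij
    have hA1 : ∀ i, A (α i) ≤ 1 := fun i => (le_max_left _ _).trans (huni i).le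
    have hB1 : ∀ i, A (β i) ≤ 1 := fun i => (le_max_right _ _).trans (huni i).le
    have aux : ∀ (x y s t r : M), r * (α i * β j - α j * β i) = x * s - y * t → A s ≤ 1 → A t ≤ 1 →
        A x ≤ max (max (A (α i * a + β i * c)) (A (α i * b + β i * d)))
          (max (A (α j * a + β j * c)) (A (α j * b + β j * d))) →
        A y ≤ max (max (A (α i * a + β i * c)) (A (α i * b + β i * d)))
          (max (A (α j * a + β j * c)) (A (α j * b + β j * d))) →
        A r ≤ max (max (A (α i * a + β i * c)) (A (α i * b + β i * d)))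
          (max (A (α j * a + β j * c)) (A (α j * b + β j * d))) := by
      intro x y s t r hr hs ht hx hy
      have h1 : A r = A (x * s - y * t) := by
        rw [← hr, map_mul, hbr i j hij, mul_one]
      rw [h1]
      refine (na_sub_le hna _ _).trans (max_le ?_ ?_)
      · rw [map_mul]
        exact (mul_le_of_le_one_right (A.nonneg _) hs).trans hx
      · rw [map_mul]
        exact (mul_le_of_le_one_right (A.nonneg _) ht).trans hy
    rw [hm]
    refine max_le (max_le ?_ ?_) (max_le ?_ ?_)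
    · exact aux (α i * a + β i * c) (α j * a + β j * c) (β j) (β i) a (by ring) (hB1 _) (hB1 _)
        ((le_max_left _ _).trans (le_max_left _ _)) ((le_max_left _ _).trans (le_max_right _ _))
    · exact aux (α i * b + β i * d) (α j * b + β j * d) (β j) (β i) b (by ring) (hB1 _) (hB1 _)
        ((le_max_right _ _).trans (le_max_left _ _)) ((le_max_right _ _).trans (le_max_right _ _))
    · exact aux (α j * a + β j * c) (α i * a + β i * c) (α i) (α j) c (by ring) (hA1 _) (hA1 _)
        ((le_max_left _ _).trans (le_max_right _ _)) ((le_max_left _ _).trans (le_max_left _ _))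
    · exact aux (α j * b + β j * d) (α i * b + β i * d) (α i) (α j) d (by ring) (hA1 _) (hA1 _)
        ((le_max_right _ _).trans (le_max_right _ _)) ((le_max_right _ _).trans (le_max_left _ _))
  · intro i j hij
    have h1 : A (a * d - b * c) = A ((α i * a + β i * c) * (α j * b + β j * d) -
        (α j * a + β j * c) * (α i * b + β i * d)) := by
      have : (α i * a + β i * c) * (α j * b + β j * d) -
        (α j * a + β j * c) * (α i * b + β i * d) = (a * d - b * c) * (α i * β j - α j * β i) := by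
        ring
      rw [this, map_mul, hbr i j hij, mul_one]
    rw [h1]
    refine (na_sub_le hna _ _).trans (max_le ?_ ?_)
    · rw [map_mul]
      exact mul_le_mul (le_max_left _ _) (le_max_right _ _) (A.nonneg _)
        (le_max_of_le_left (A.nonneg _))
    · rw [map_mul, mul_comm]
      exact mul_le_mul (le_max_right _ _) (le_max_left _ _) (A.nonneg _)
        (le_max_of_le_left (A.nonneg _))

section

variable {K : Type} [Field K] [NumberField K]

/-- the lower bound for the discriminant of an integral form equivalent to a ramified twist of a form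
of unit discriminant -/
theorem disc_ge {v : HeightOneSpectrum (𝓞 K)} {h : ℕ} (hh : 2 ≤ h) {F G : K[X]}
    (hF : GoodForm h F) (hint : ∀ i, v.valuation K (F.coeff i) ≤ 1)
    (hdisc : v.valuation K (discN (h + h) F) = 1) {d : K} (hd : v.valuation K d = exp (-1 : ℤ))
    (hE : Eqv h (C d * F) G) (hintG : ∀ i, v.valuation K (G.coeff i) ≤ 1) {j : ℤ}
    (hj : v.valuation K (discN (h + h) G) = exp (-j)) : (2 * (h + h - 1) : ℕ) ≤ j := by
  classical
  obtain ⟨M, _, _, _, _, _, _, hsplit⟩ := exists_bigField (K := K) (L := K) F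
  obtain ⟨W, hW⟩ := exists_prime_over (M := M) v
  set e := v.asIdeal.ramificationIdx' W.asIdeal with he
  have he1 : 1 ≤ e := ram_pos v W
  have he0 : (0 : ℤ) < e := by exact_mod_cast he1
  have hc : Compat v W e := by
    refine ⟨he1, fun x k hx => ?_⟩
    rw [absW_exp W (absW_liesOver v W hx)]
    congr 1
    ring
  set φ := algebraMap K M with hφ
  have hF0 : F ≠ 0 := hF.1.ne_zero
  obtain ⟨u, α, β, hu, huni, hne, hfac⟩ := exists_factor_form (absW W) (by omega) hF.2 hF.1 hsplit
  have hna := absW_na W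
  have hi1 := (hc.int_iff F).mpr hint
  rw [hfac] at hi1
  have hd1 : absW W (discN (h + h) (C u * ∏ i, (C (α i) * X + C (β i)))) = 1 := by
    rw [← hfac, discN_map]
    have := hc.2 (discN (h + h) F) 0 (by rw [hdisc, exp_zero])
    rw [this]
    simp
  obtain ⟨hu1, hbr⟩ := unit_form hna hh hu huni hne hi1 hd1
  have hd0 : d ≠ 0 := by
    rintro rfl
    rw [map_zero] at hd
    exact exp_ne_zero hd.symm
  have hφd : φ d ≠ 0 := by rwa [Ne, map_eq_zero]
  obtain ⟨a, b, c, x, l, hdet, hl, hG⟩ := hE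
  have hdet' : φ a * φ x - φ b * φ c ≠ 0 := by
    rw [← map_mul, ← map_mul, ← map_sub, Ne, map_eq_zero]
    exact hdet
  have hl' : φ l ≠ 0 := by rwa [Ne, map_eq_zero]
  have hdF : (C d * F).map φ = C (φ d * u) * ∏ i, (C (α i) * X + C (β i)) := by
    rw [Polynomial.map_mul, Polynomial.map_C, hfac, C_mul, mul_assoc]
  have hmap : G.map φ = C (φ l ^ 2) * act (h + h) (φ a) (φ b) (φ c) (φ x)
      (C (φ d * u) * ∏ i, (C (α i) * X + C (β i))) := by
    rw [hG, Polynomial.map_mul, Polynomial.map_C, map_pow, act_map, hdF]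
  have hintG' : (C (φ l ^ 2) * act (h + h) (φ a) (φ b) (φ c) (φ x)
      (C (φ d * u) * ∏ i, (C (α i) * X + C (β i)))).gaussNorm (absW W) 1 ≤ 1 := by
    rw [← hmap]
    exact (hc.int_iff G).mpr hintG
  -- the largest entry
  obtain ⟨y, hy, hymax⟩ : ∃ y : K, y ≠ 0 ∧ absW W (φ y) =
      max (max (absW W (φ a)) (absW W (φ b))) (max (absW W (φ c)) (absW W (φ x))) := by
    have hpos : 0 < max (max (absW W (φ a)) (absW W (φ b)))
        (max (absW W (φ c)) (absW W (φ x))) := by
      by_contra hcon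
      push Not at hcon
      have e1 : absW W (φ a) ≤ 0 := (le_max_left _ _).trans ((le_max_left _ _).trans hcon)
      have e2 : absW W (φ b) ≤ 0 := (le_max_right _ _).trans ((le_max_left _ _).trans hcon)
      have e3 : φ a = 0 := (absW W).eq_zero.mp (le_antisymm e1 ((absW W).nonneg _))
      have e4 : φ b = 0 := (absW W).eq_zero.mp (le_antisymm e2 ((absW W).nonneg _))
      rw [e3, e4] at hdet'
      simp at hdet'
    have hex : ∃ y : K, absW W (φ y) = max (max (absW W (φ a)) (absW W (φ b)))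
        (max (absW W (φ c)) (absW W (φ x))) := by
      rcases max_choice (max (absW W (φ a)) (absW W (φ b)))
        (max (absW W (φ c)) (absW W (φ x))) with h1 | h1 <;> rw [h1]
      · rcases max_choice (absW W (φ a)) (absW W (φ b)) with h2 | h2 <;> rw [h2]
        · exact ⟨a, rfl⟩
        · exact ⟨b, rfl⟩
      · rcases max_choice (absW W (φ c)) (absW W (φ x)) with h2 | h2 <;> rw [h2]
        · exact ⟨c, rfl⟩
        · exact ⟨x, rfl⟩
    obtain ⟨y, hy⟩ := hex
    refine ⟨y, ?_, hy⟩
    rintro rfl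
    rw [← hy] at hpos
    simp at hpos
  have hsize := act_size hna hh huni hbr hdet' ((absW W).nonneg (φ y)) hymax hintG'
  have hdy : absW W (φ a * φ x - φ b * φ c) ≤ absW W (φ y) ^ 2 := by
    have h0 := (absW W).nonneg (φ y)
    refine (na_sub_le hna _ _).trans (max_le ?_ ?_)
    · rw [map_mul, sq]
      refine mul_le_mul ?_ ?_ ((absW W).nonneg _) h0
      · rw [hymax]; exact (le_max_left _ _).trans (le_max_left _ _)
      · rw [hymax]; exact (le_max_right _ _).trans (le_max_right _ _)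
    · rw [map_mul, sq]
      refine mul_le_mul ?_ ?_ ((absW W).nonneg _) h0
      · rw [hymax]; exact (le_max_right _ _).trans (le_max_left _ _)
      · rw [hymax]; exact (le_max_left _ _).trans (le_max_right _ _)
  have hdG := disc_sq_act (A := absW W) (mul_ne_zero hφd hu) hne hh hdet' hl'
  have hdF' : absW W (discN (h + h) (C (φ d * u) * ∏ i, (C (α i) * X + C (β i)))) =
      absW W (φ d) ^ (2 * (h + h - 1)) := by
    have h1 := abs_discN_prod_lin (absW W) (mul_ne_zero hφd hu) α β hne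
      (by rw [Fintype.card_fin]; omega)
    rw [Fintype.card_fin] at h1
    rw [h1, map_mul, hu1, mul_one]
    have h2 : ∏ i, ∏ j ∈ univ.erase i, absW W (α i * β j - α j * β i) = 1 := by
      refine Finset.prod_eq_one fun i _ => Finset.prod_eq_one fun j hj => ?_
      exact hbr i j (Finset.ne_of_mem_erase hj).symm
    rw [h2, mul_one]
  rw [← hmap, hdF', discN_map] at hdG
  -- exponents
  obtain ⟨lam, hlam⟩ := exists_exp v hl
  obtain ⟨D', hD⟩ := exists_exp v hdet
  obtain ⟨μ', hμ⟩ := exists_exp v hy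
  have e1 := hc.2 l lam hlam
  have e2 := hc.2 _ D' hD
  have e3 := hc.2 y μ' hμ
  have e4 := hc.2 d (-1) hd
  have e5 := hc.2 _ (-j) hj
  rw [map_sub, map_mul, map_mul] at e2
  rw [map_mul (absW W) (φ d) u, hu1, mul_one, e1, e2, e3, e4] at hsize
  rw [e2, e3] at hdy
  rw [e1, e2, e4, e5] at hdG
  have two_inj : ∀ a b : ℤ, (2 : ℝ) ^ a = 2 ^ b → a = b := fun a b hab =>
    zpow_right_injective₀ (by norm_num) (by norm_num) hab
  have two_le : ∀ a b : ℤ, (2 : ℝ) ^ a ≤ 2 ^ b → a ≤ b := fun a b hab =>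
    (zpow_le_zpow_iff_right₀ (by norm_num)).mp hab
  -- first inequality
  have f1 : 2 * lam + (-1) + (D' + (2 * h - 2 : ℕ) * μ') ≤ 0 := by
    have h1 : ((2 : ℝ) ^ (lam * (e : ℤ))) ^ 2 * 2 ^ (-1 * (e : ℤ)) *
        (2 ^ (D' * (e : ℤ)) * (2 ^ (μ' * (e : ℤ))) ^ (2 * h - 2)) =
        2 ^ ((2 * lam + (-1) + (D' + (2 * h - 2 : ℕ) * μ')) * (e : ℤ)) := by
      rw [← zpow_natCast, ← zpow_natCast, ← zpow_mul, ← zpow_mul, ← zpow_add₀ (by norm_num),
        ← zpow_add₀ (by norm_num), ← zpow_add₀ (by norm_num)]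
      congr 1
      push_cast
      ring
    rw [h1] at hsize
    have h2 := two_le _ 0 (by simpa using hsize)
    by_contra hcon
    push Not at hcon
    have := mul_pos hcon he0
    omega
  have f2 : D' ≤ 2 * μ' := by
    have h1 : ((2 : ℝ) ^ (μ' * (e : ℤ))) ^ 2 = 2 ^ (2 * μ' * (e : ℤ)) := by
      rw [← zpow_natCast, ← zpow_mul]
      congr 1
      push_cast
      ring
    rw [h1] at hdy
    have h2 := two_le _ _ hdy
    exact le_of_mul_le_mul_right h2 he0
  have f3 : -j = (2 * lam + h * D' - 1) * (2 * (h + h - 1) : ℕ) := by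
    have h1 : (((2 : ℝ) ^ (lam * (e : ℤ))) ^ 2 * (2 ^ (D' * (e : ℤ))) ^ h) ^ (2 * (h + h - 1)) *
        (2 ^ (-1 * (e : ℤ))) ^ (2 * (h + h - 1)) =
        2 ^ ((2 * lam + h * D' - 1) * (2 * (h + h - 1) : ℕ) * (e : ℤ)) := by
      rw [← mul_pow, ← zpow_natCast, ← zpow_natCast, ← zpow_natCast, ← zpow_mul, ← zpow_mul,
        ← zpow_add₀ (by norm_num), ← zpow_add₀ (by norm_num), ← zpow_mul]
      congr 1
      push_cast
      ring
    rw [h1] at hdG
    have h2 := two_inj _ _ hdG
    exact mul_right_cancel₀ he0.ne' h2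
  -- the parity argument
  obtain ⟨h', rfl⟩ : ∃ h', h = h' + 2 := ⟨h - 2, by omega⟩
  have f4 : 2 * lam + ((h' + 2 : ℕ) : ℤ) * D' ≤ 0 := by
    have g1 : ((2 * (h' + 2) - 2 : ℕ) : ℤ) = 2 * h' + 2 := by
      have : 2 * (h' + 2) - 2 = 2 * h' + 2 := by omega
      rw [this]; push_cast; ring
    rw [g1] at f1
    push_cast
    rcases f2.lt_or_eq with hlt | heq
    · have g2 : D' ≤ 2 * μ' - 1 := by omega
      have g3 : ((h' : ℤ) + 1) * D' ≤ ((h' : ℤ) + 1) * (2 * μ' - 1) :=
        mul_le_mul_of_nonneg_left g2 (by positivity)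
      nlinarith
    · rw [heq] at f1 ⊢
      have g4 : ((h' : ℤ) + 2) * (2 * μ') = 2 * ((h' : ℤ) * μ') + 4 * μ' := by ring
      have g5 : (2 * (h' : ℤ) + 2) * μ' = 2 * ((h' : ℤ) * μ') + 2 * μ' := by ring
      rw [g5] at f1
      rw [g4]
      generalize (h' : ℤ) * μ' = p at f1 ⊢
      omega
  have f5 : j = (1 - (2 * lam + ((h' + 2 : ℕ) : ℤ) * D')) * (2 * (h' + 2 + (h' + 2) - 1) : ℕ) := by
    linarith
  rw [f5]
  have f6 : (0 : ℤ) ≤ (2 * (h' + 2 + (h' + 2) - 1) : ℕ) := by positivity
  generalize ((2 * (h' + 2 + (h' + 2) - 1) : ℕ) : ℤ) = S at f6 ⊢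
  nlinarith

/-- **The exponent of the minimal discriminant of a ramified quadratic twist of a hyperelliptic curve
of good reduction, at a prime which does not divide `2`, is `4 g + 2`.** -/
theorem minExp_ram {g : ℕ} (hg : 2 ≤ g) {F : K[X]} (hF : IsHyp g F)
    (v : HeightOneSpectrum (𝓞 K)) (h2 : v.valuation K (2 : K) = 1) {d : K}
    (hd : v.valuation K d = exp (-1 : ℤ)) (hgood : minExp g F v = 0) :
    minExp g (C d * F) v = 4 * g + 2 := by
  have hd0 : d ≠ 0 := by
    rintro rfl
    rw [map_zero] at hd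
    exact exp_ne_zero hd.symm
  have hdF := isHyp_C_mul hF hd0
  have h4 : v.valuation K (1 / 4 : K) = 1 := by
    have : (1 / 4 : K) = (2 * 2)⁻¹ := by norm_num
    rw [this, map_inv₀, map_mul, h2, one_mul, inv_one]
  -- the discriminant of a model
  have hmod : ∀ {F₀ : K[X]}, IsHyp g F₀ → ∀ {f f₂ : K[X]}, Eqv (g + 1) F₀ (4 * f + f₂ ^ 2) →
      v.valuation K (modelDisc g f f₂) =
        v.valuation K (discN (g + 1 + (g + 1)) (4 * f + f₂ ^ 2)) := by
    intro F₀ hF₀ f f₂ he
    have hgd := he.good (by omega) hF₀.good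
    rw [modelDisc_eq, four_mul_form, discN_C_mul (by omega) (by norm_num : (1 / 4 : K) ≠ 0) hgd.2,
      map_mul, map_mul, map_pow, map_pow, h2, h4, one_pow, one_pow, one_mul, one_mul]
  obtain ⟨f, f₂, hM, hv⟩ := exists_min_model hF v
  obtain ⟨m1, m2, _, _, m5⟩ := (isModel_iff hg hF v f f₂).mp hM
  rw [hgood] at hv
  have hv1 : v.valuation K (discN (g + 1 + (g + 1)) (4 * f + f₂ ^ 2)) = 1 := by
    rw [← hmod hF m5, hv]
    simp
  have hint := int_comb v m1 m2
  have hgd := m5.good (by omega) hF.good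
  -- the upper bound
  have hle : minExp g (C d * F) v ≤ 4 * g + 2 := by
    have he := eqv_C_mul m5 d
    have hint' : ∀ i, v.valuation K ((C d * (4 * f + f₂ ^ 2)).coeff i) ≤ 1 := by
      intro i
      rw [coeff_C_mul, map_mul, hd]
      refine mul_le_one' ?_ (hint i)
      rw [← exp_zero, exp_le_exp]
      norm_num
    obtain ⟨k, hk, _, hle⟩ := minExp_le hdF v he hint' (t := 0) (by rw [h2]; simp)
    rw [discN_C_mul (by omega) hd0 hgd.2, map_mul, map_pow, hv1, mul_one, hd, ← exp_nsmul,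
      exp_inj] at hk
    have : k = 4 * g + 2 := by
      simp only [nsmul_eq_mul] at hk
      have e : 2 * (g + 1 + (g + 1) - 1) = 4 * g + 2 := by omega
      rw [e] at hk
      push_cast at hk
      omega
    omega
  refine le_antisymm hle ?_
  obtain ⟨f', f₂', hM', hv'⟩ := exists_min_model hdF v
  obtain ⟨n1, n2, _, _, n5⟩ := (isModel_iff hg hdF v f' f₂').mp hM'
  rw [hmod hdF n5] at hv'
  have hE : Eqv (g + 1) (C d * (4 * f + f₂ ^ 2)) (4 * f' + f₂' ^ 2) := by
    have hdeg : (C d * F).natDegree ≤ g + 1 + (g + 1) := by have := hdF.2; omega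
    exact ((eqv_C_mul m5 d).symm hdeg).trans (eqv_C_mul m5 d).natDegree_le n5
  have := disc_ge (by omega) hgd hint hv1 hd hE (int_comb v n1 n2) hv'
  have e : 2 * (g + 1 + (g + 1) - 1) = 4 * g + 2 := by omega
  rw [e] at this
  exact_mod_cast this

end

end Pool.Agent.Helper86.Hyp
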