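import Mathlib

/-!
# Squarefree integers in the progression `1 + q k`
-/

set_option autoImplicit false

namespace Pool.Agent.Helper86.Hyp

open Finset

theorem card_class {q j K : ℕ} (hj : 0 < j) :
    ((range K).filter (fun k => j ∣ 1 + q * k)).card ≤ K / j + 1 := by
  classical
  by_cases hcop : Nat.Coprime j q
  · have hinj : Set.InjOn (fun k => k / j)
        (((range K).filter (fun k => j ∣ 1 + q * k) : Finset ℕ) : Set ℕ) := by
      intro a ha b hb hab
      rw [Finset.mem_coe, mem_filter] at ha hb
      have h1 : (j : ℤ) ∣ (q : ℤ) * ((a : ℤ) - b) := by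
        have e1 : (j : ℤ) ∣ 1 + q * a := by exact_mod_cast ha.2
        have e2 : (j : ℤ) ∣ 1 + q * b := by exact_mod_cast hb.2
        have := dvd_sub e1 e2
        have e3 : (1 + (q : ℤ) * a) - (1 + q * b) = q * ((a : ℤ) - b) := by ring
        rwa [e3] at this
      have h2 : (j : ℤ) ∣ (a : ℤ) - b :=
        (Nat.isCoprime_iff_coprime.mpr hcop).dvd_of_dvd_mul_left h1
      have h3 : b % j = a % j := Nat.modEq_iff_dvd.mpr h2
      have h5 := Nat.div_add_mod a j
      have h6 := Nat.div_add_mod b j
      change a / j = b / j at hab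
      rw [hab, ← h3] at h5
      omega
    rw [← Finset.card_image_of_injOn hinj]
    have hsub : ((range K).filter (fun k => j ∣ 1 + q * k)).image (fun k => k / j) ⊆
        range (K / j + 1) := by
      intro x hx
      obtain ⟨k, hk, rfl⟩ := mem_image.mp hx
      have hk' := mem_range.mp (mem_filter.mp hk).1
      rw [mem_range, Nat.lt_succ_iff]
      exact Nat.div_le_div_right hk'.le
    calc _ ≤ (range (K / j + 1)).card := card_le_card hsub
      _ = K / j + 1 := card_range _
  · have : (range K).filter (fun k => j ∣ 1 + q * k) = ∅ := by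
      rw [filter_eq_empty_iff]
      intro k _ hdvd
      apply hcop
      have h1 : Nat.gcd j q ∣ 1 + q * k := (Nat.gcd_dvd_left j q).trans hdvd
      have h2 : Nat.gcd j q ∣ q * k := (Nat.gcd_dvd_right j q).mul_right k
      have h3 : Nat.gcd j q ∣ 1 := (Nat.dvd_add_left h2).mp h1
      exact Nat.dvd_one.mp h3
    rw [this, card_empty]
    exact Nat.zero_le _

theorem sum_inv_odd (n : ℕ) :
    ∑ i ∈ range n, (1 : ℝ) / ((2 * (i + 1) + 1 : ℕ) : ℝ) ^ 2 ≤ 1 / 4 - 1 / (4 * ((n : ℝ) + 1)) := by
  induction n with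
  | zero => simp
  | succ n ih =>
    rw [sum_range_succ]
    have h1 : (1 : ℝ) / ((2 * (n + 1) + 1 : ℕ) : ℝ) ^ 2 ≤
        1 / (4 * ((n : ℝ) + 1)) - 1 / (4 * ((n : ℝ) + 1 + 1)) := by
      have hn : (0 : ℝ) ≤ n := Nat.cast_nonneg n
      rw [div_sub_div _ _ (by positivity) (by positivity), div_le_div_iff₀ (by positivity)
        (by positivity)]
      push_cast
      nlinarith
    push_cast at h1 ih ⊢
    linarith

/-- at least half of the numbers `1 + q k`, `k < K`, are squarefree -/
theorem half_sqf {q K : ℕ} (hq : Even q) (hK : 16 * q ≤ K) :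
    K ≤ 2 * ((range K).filter (fun k => Squarefree (1 + q * k))).card := by
  classical
  have h1 : (range K).filter (fun k => ¬ Squarefree (1 + q * k)) ⊆
      (range (K / 8)).biUnion
        (fun i => (range K).filter (fun k => (2 * (i + 1) + 1) ^ 2 ∣ 1 + q * k)) := by
    intro k hk
    obtain ⟨hk1, hk2⟩ := mem_filter.mp hk
    rw [mem_range] at hk1
    rw [Nat.squarefree_iff_prime_squarefree] at hk2
    push Not at hk2
    obtain ⟨p, hp, hpd⟩ := hk2
    have hodd : p ≠ 2 := by
      rintro rfl
      obtain ⟨c, hc⟩ := hpd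
      obtain ⟨d, hd⟩ := hq
      have : 1 + (d + d) * k = 2 * (2 * c) := by rw [← hd, hc]; ring
      have h2 : (d + d) * k = 2 * (d * k) := by ring
      omega
    obtain ⟨i, hi⟩ := hp.odd_of_ne_two hodd
    have hp3 : 3 ≤ p := by
      have := hp.two_le
      omega
    have hi1 : 1 ≤ i := by omega
    have hle : p * p ≤ 1 + q * k := Nat.le_of_dvd (by omega) hpd
    -- `8 i < K`
    have hq1 : 1 + q * k ≤ q * K := by
      have hq0 : 1 ≤ q := by
        rcases Nat.eq_zero_or_pos q with h | h
        · rw [h] at hle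
          nlinarith
        · exact h
      nlinarith
    have h8 : 8 * i < K := by
      by_contra hcon
      push Not at hcon
      have e1 : 16 * (q * K) ≤ K * K := by nlinarith
      have e2 : 16 * (p * p) ≤ K * K := by omega
      have e3 : K ≤ 4 * p - 1 := by omega
      have e4 : K * K ≤ (4 * p - 1) * (4 * p - 1) := Nat.mul_le_mul e3 e3
      have e5 : (4 * p - 1) * (4 * p - 1) < 16 * (p * p) := by
        have : 4 * p - 1 < 4 * p := by omega
        have := Nat.mul_lt_mul'' this this
        calc _ < 4 * p * (4 * p) := this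
          _ = 16 * (p * p) := by ring
      omega
    rw [mem_biUnion]
    refine ⟨i - 1, ?_, ?_⟩
    · rw [mem_range]
      omega
    · rw [mem_filter, mem_range]
      refine ⟨hk1, ?_⟩
      have : 2 * (i - 1 + 1) + 1 = p := by omega
      rw [this, sq]
      exact hpd
  have h2 : ((range K).filter (fun k => ¬ Squarefree (1 + q * k))).card ≤
      ∑ i ∈ range (K / 8), (K / (2 * (i + 1) + 1) ^ 2 + 1) := by
    refine (card_le_card h1).trans (card_biUnion_le.trans ?_)
    exact sum_le_sum fun i _ => card_class (by positivity)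
  have h3 : (((range K).filter (fun k => ¬ Squarefree (1 + q * k))).card : ℝ) ≤ K / 2 := by
    have h4 : (((range K).filter (fun k => ¬ Squarefree (1 + q * k))).card : ℝ) ≤
        ∑ i ∈ range (K / 8), ((K : ℝ) * (1 / ((2 * (i + 1) + 1 : ℕ) : ℝ) ^ 2) + 1) := by
      refine le_trans (b := ((∑ i ∈ range (K / 8), (K / (2 * (i + 1) + 1) ^ 2 + 1) : ℕ) : ℝ))
        (by exact_mod_cast h2) ?_
      push_cast
      refine sum_le_sum fun i _ => ?_
      have := Nat.cast_div_le (α := ℝ) (m := K) (n := (2 * (i + 1) + 1) ^ 2)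
      push_cast at this
      rw [mul_one_div]
      linarith
    rw [sum_add_distrib, ← mul_sum, sum_const, card_range, nsmul_eq_mul, mul_one] at h4
    have h5 := sum_inv_odd (K / 8)
    have h6 : (0 : ℝ) ≤ 1 / (4 * (((K / 8 : ℕ) : ℝ) + 1)) := by positivity
    have h7 : ((K / 8 : ℕ) : ℝ) ≤ K / 8 := by
      have := Nat.cast_div_le (α := ℝ) (m := K) (n := 8)
      exact_mod_cast this
    have hK0 : (0 : ℝ) ≤ K := Nat.cast_nonneg K
    have h8 : (K : ℝ) * ∑ i ∈ range (K / 8), (1 : ℝ) / ((2 * (i + 1) + 1 : ℕ) : ℝ) ^ 2 ≤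
        K * (1 / 4) := by
      refine mul_le_mul_of_nonneg_left ?_ hK0
      linarith
    linarith
  have h9 : ((range K).filter (fun k => Squarefree (1 + q * k))).card +
      ((range K).filter (fun k => ¬ Squarefree (1 + q * k))).card = K := by
    rw [card_filter_add_card_filter_not, card_range]
  have h10 : (((range K).filter (fun k => Squarefree (1 + q * k))).card : ℝ) +
      ((range K).filter (fun k => ¬ Squarefree (1 + q * k))).card = K := by exact_mod_cast h9
  have h11 : (K : ℝ) ≤ 2 * ((range K).filter (fun k => Squarefree (1 + q * k))).card := by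
    linarith
  exact_mod_cast h11

end Pool.Agent.Helper86.Hyp
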